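import Pool.Agent.H525R3.FFp.RR

/-! Riemann's theorem. -/

set_option autoImplicit false
set_option linter.all false
set_option linter.overlappingInstances false

open Module IsDedekindDomain IntermediateField FF

namespace Pool.Agent.H525R3.FFp

variable {k K : Type*} [Field k] [Field K] [Algebra k K] [PerfectField k] [IsFF k K]

theorem lower_bound {x : K} (hDx : KaehlerDifferential.D k K x ≠ 0) :
    ∃ c : ℤ, ∀ m : ℕ, (m : ℤ) * ddeg (polar (k := k) x) ≤ ell (m • polar (k := k) x) + c := by
  open scoped algebraAdjoinAdjoin in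
  classical
  have hx := (sep_of_D_ne hDx).1
  let A := Algebra.adjoin k {x}
  let e := Polynomial.algEquivOfTranscendental k x hx
  have hpid : IsPrincipalIdealRing A := IsPrincipalIdealRing.of_surjective e.toRingEquiv e.surjective
  have hded : IsDedekindDomain A := inferInstance
  have hfin := IsFF.finite hx
  have hx0 : x ≠ 0 := by
    rintro rfl; exact hx isAlgebraic_zero
  obtain ⟨s, b, hb⟩ := FiniteDimensional.exists_is_basis_integral A k⟮x⟯ K
  have hn : finrank k⟮x⟯ K = Fintype.card s := by
    rw [finrank_eq_card_basis b]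
  have hreg : ∀ w : Place k K, 0 ≤ w.ord x → ∀ a : A, w.Reg (algebraMap A K a) := by
    rintro w hw ⟨a, ha⟩
    change w.Reg a
    induction ha using Algebra.adjoin_induction with
    | mem y hy =>
      rw [Set.mem_singleton_iff] at hy
      subst hy
      exact Or.inr hw
    | algebraMap r => exact w.reg_const r
    | add x y _ _ hx hy => exact w.reg_add hx hy
    | mul x y _ _ hx hy => exact w.reg_mul hx hy
  have hb0 : ∀ i, b i ≠ 0 := fun i => b.ne_zero i
  have hregb : ∀ w : Place k K, 0 ≤ w.ord x → ∀ i, 0 ≤ w.ord (b i) := by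
    intro w hw i
    exact (w.reg_iff (hb0 i)).1 (w.reg_of_isIntegral (hreg w hw) (hb i))
  obtain ⟨S, hS, -⟩ := poles (k := k) (f := x) hDx
  -- bound r
  let r : ℕ := ∑ w ∈ S, ∑ i : s, (- w.ord (b i)).toNat
  have hr : ∀ w ∈ S, ∀ i, - (w.ord (b i)) ≤ r := by
    intro w hw i
    have h1 : (- w.ord (b i)).toNat ≤ ∑ i : s, (- w.ord (b i)).toNat :=
      Finset.single_le_sum (f := fun i : s => (- w.ord (b i)).toNat) (fun _ _ => Nat.zero_le _) (Finset.mem_univ i)
    have h2 : ∑ i : s, (- w.ord (b i)).toNat ≤ r :=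
      Finset.single_le_sum (f := fun w : Place k K => ∑ i : s, (- w.ord (b i)).toNat) (fun _ _ => Nat.zero_le _) hw
    omega
  have hmem : ∀ (j m : ℕ) (i : s), r + j ≤ m → x ^ j * b i ∈ LL (m • polar (k := k) x) := by
    intro j m i hjm
    right
    intro w
    rw [w.ord_mul (pow_ne_zero _ hx0) (hb0 i), w.ord_pow, Finsupp.smul_apply, polar_apply, nsmul_eq_mul]
    rcases le_or_gt 0 (w.ord x) with h | h
    · have h1 := hregb w h i
      rw [max_eq_right (by omega)]
      have : 0 ≤ (j : ℤ) * w.ord x := by positivity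
      omega
    · rw [max_eq_left (by omega)]
      have h1 := hr w ((hS w).2 h) i
      have h2 : (r : ℤ) + j ≤ m := by exact_mod_cast hjm
      have h3 : (r : ℤ) * 1 ≤ (m - j) * (-w.ord x) := by
        apply mul_le_mul (by omega) (by omega) (by norm_num) (by omega)
      nlinarith
  have hpow : LinearIndependent k (fun j : ℕ => (AdjoinSimple.gen k x) ^ j) := by
    have h1 := (Polynomial.basisMonomials k).linearIndependent
    have h2 := h1.map' (Polynomial.aeval (AdjoinSimple.gen k x)).toLinearMap (by
      rw [LinearMap.ker_eq_bot]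
      have : Transcendental k (AdjoinSimple.gen k x) := by
        intro h
        apply hx
        have := h.algebraMap (A := K)
        simpa using this
      exact transcendental_iff_injective.1 this)
    have h3 : (fun j : ℕ => (AdjoinSimple.gen k x) ^ j) = ⇑(Polynomial.aeval (AdjoinSimple.gen k x)).toLinearMap ∘ ⇑(Polynomial.basisMonomials k) := by
      funext j
      simp
    rw [h3]
    exact h2
  have hind := linearIndependent_smul hpow b.linearIndependent
  have hlow : ∀ N m : ℕ, r + N ≤ m + 1 → N * Fintype.card s ≤ finrank k (LL (m • polar (k := k) x)) := by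
    intro N m hNm
    have h1 : LinearIndependent k (fun p : Fin N × s => (AdjoinSimple.gen k x) ^ (p.1 : ℕ) • b p.2) := by
      have := hind.comp (fun p : Fin N × s => ((p.1 : ℕ), p.2)) (by
        rintro ⟨a, b⟩ ⟨c, d⟩ h
        simp only [Prod.mk.injEq] at h
        ext
        · exact h.1
        · exact congrArg Subtype.val h.2)
      exact this
    have h2 : ∀ p : Fin N × s, (AdjoinSimple.gen k x) ^ (p.1 : ℕ) • b p.2 ∈ LL (m • polar (k := k) x) := by
      intro p
      have : (AdjoinSimple.gen k x) ^ (p.1 : ℕ) • b p.2 = x ^ (p.1 : ℕ) * b p.2 := by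
        rw [Algebra.smul_def]; simp
      rw [this]
      exact hmem _ _ _ (by have := p.1.2; omega)
    let v : Fin N × s → LL (m • polar (k := k) x) := fun p => ⟨_, h2 p⟩
    have h3 : LinearIndependent k v := by
      apply LinearIndependent.of_comp (LL (m • polar (k := k) x)).subtype
      exact h1
    have h4 := h3.fintype_card_le_finrank
    simpa using h4
  refine ⟨r * Fintype.card s, ?_⟩
  intro m
  rw [ddeg_polar hDx, hn]
  unfold ell
  rcases le_or_gt r m with h | h
  · have := hlow (m + 1 - r) m (by omega)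
    have h2 : ((m + 1 - r : ℕ) : ℤ) = m + 1 - r := by omega
    have h3 : ((m + 1 - r : ℕ) : ℤ) * Fintype.card s ≤ finrank k (LL (m • polar (k := k) x)) := by exact_mod_cast this
    rw [h2] at h3
    nlinarith
  · have h1 : (m : ℤ) * Fintype.card s ≤ r * Fintype.card s := by
      apply mul_le_mul_of_nonneg_right _ (by positivity)
      exact_mod_cast h.le
    have : (0 : ℤ) ≤ finrank k (LL (m • polar (k := k) x)) := by positivity
    omega

/-- deg D - l(D) -/
noncomputable def phi (D : Place k K →₀ ℤ) : ℤ := ddeg D - ell D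

theorem phi_mono {D E : Place k K →₀ ℤ} (h : D ≤ E) : phi D ≤ phi E := by
  have := ell_le h
  unfold phi; omega

theorem phi_add_divisor (D : Place k K →₀ ℤ) {z : K} (hz : z ≠ 0) : phi (D + divisor k z) = phi D := by
  unfold phi; rw [ell_add_divisor D hz, ddeg_add, ddeg_divisor, add_zero]

theorem ddeg_polar_pos {x : K} (hx : KaehlerDifferential.D k K x ≠ 0) : 0 < ddeg (polar (k := k) x) := by
  rw [ddeg_polar hx]
  have := IsFF.finite (sep_of_D_ne hx).1
  exact_mod_cast finrank_pos

/-- comparison with multiples of a pole divisor -/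
theorem exists_compare {x : K} (hx : KaehlerDifferential.D k K x ≠ 0) (D : Place k K →₀ ℤ) :
    ∃ (m : ℕ) (z : K), z ≠ 0 ∧ D ≤ m • polar (k := k) x + divisor k z := by
  obtain ⟨c, hc⟩ := lower_bound hx
  have hH := ddeg_polar_pos hx
  let Dp : Place k K →₀ ℤ := D.mapRange (fun n => max n 0) (by simp)
  have hDp : D ≤ Dp := fun P => by simp [Dp]
  have hDp0 : 0 ≤ Dp := fun P => by simp [Dp]
  let m : ℕ := (c + ddeg Dp).toNat + 1
  have h1 : 0 < ell (m • polar (k := k) x - D) := by
    have h2 := ell_mono (D := m • polar (k := k) x - Dp) (E := m • polar (k := k) x - D) (sub_le_sub_left hDp _)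
    have h3 := ell_le (D := m • polar (k := k) x - Dp) (E := m • polar (k := k) x) (sub_le_self _ hDp0)
    rw [ddeg_sub] at h3
    have h4 := hc m
    have h5 : (m : ℤ) * 1 ≤ m * ddeg (polar (k := k) x) := mul_le_mul_of_nonneg_left (by omega) (by positivity)
    omega
  obtain ⟨z, hz, hz0⟩ := exists_ne_zero_of_ell_pos h1
  refine ⟨m, z, hz0, ?_⟩
  rw [mem_LL' hz0] at hz
  have : m • polar (k := k) x + divisor k z - D = divisor k z + (m • polar (k := k) x - D) := by abel
  rw [← sub_nonneg, this]
  exact hz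

variable (k K) in
theorem riemann : ∃ γ N : ℤ, (∀ D : Place k K →₀ ℤ, ddeg D - γ ≤ ell D) ∧
    ∀ D : Place k K →₀ ℤ, N ≤ ddeg D → ell D = ddeg D - γ := by
  obtain ⟨x, hx⟩ := exists_D_ne k K
  obtain ⟨c, hc⟩ := lower_bound hx
  have hbound : ∀ D : Place k K →₀ ℤ, phi D ≤ c := by
    intro D
    obtain ⟨m, z, hz, hD⟩ := exists_compare hx D
    have h1 := phi_mono hD
    rw [phi_add_divisor _ hz] at h1
    refine h1.trans ?_
    unfold phi
    rw [ddeg_nsmul]
    have := hc m
    omega
  obtain ⟨γ, ⟨A, hA⟩, hmax⟩ := Int.exists_greatest_of_bdd (P := fun n => ∃ D : Place k K →₀ ℤ, phi D = n)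
    ⟨c, by rintro n ⟨D, rfl⟩; exact hbound D⟩ ⟨_, 0, rfl⟩
  refine ⟨γ, ddeg A + γ + 1, ?_, ?_⟩
  · intro D
    have := hmax _ ⟨D, rfl⟩
    unfold phi at this
    omega
  · intro D hD
    have h1 : 0 < ell (D - A) := by
      have h2 := hmax _ ⟨D - A, rfl⟩
      unfold phi at h2
      rw [ddeg_sub] at h2
      omega
    obtain ⟨z, hz, hz0⟩ := exists_ne_zero_of_ell_pos h1
    rw [mem_LL' hz0] at hz
    have h2 : A ≤ D + divisor k z := by
      rw [← sub_nonneg]
      have : D + divisor k z - A = divisor k z + (D - A) := by abel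
      rw [this]; exact hz
    have h3 := phi_mono h2
    rw [phi_add_divisor _ hz0, hA] at h3
    have h4 := hmax _ ⟨D, rfl⟩
    unfold phi at h3 h4
    omega

end Pool.Agent.H525R3.FFp
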