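import Pool.Agent.Helper386.D5V.Helper386_FF_Div

/-! Function fields of one variable over a perfect field: separating elements. -/

set_option autoImplicit false
set_option linter.all false

open Module IsDedekindDomain IntermediateField FF
open scoped KaehlerDifferential

namespace Pool.Agent.H525R3.FFp

variable {k K : Type*} [Field k] [Field K] [Algebra k K]

theorem exists_sep [PerfectField k] [h : IsFF k K] :
    ∃ x : K, Transcendental k x ∧ Algebra.IsSeparable k⟮x⟯ K := by
  have := h.ess
  obtain ⟨s, hs, hsep⟩ := exists_isTranscendenceBasis_and_isSeparable_of_perfectField k K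
  have hc := hs.lift_cardinalMk_eq_trdeg
  rw [h.trdeg] at hc
  have hc1 : s.card = 1 := by
    simpa using hc
  obtain ⟨x, rfl⟩ := Finset.card_eq_one.1 hc1
  have hx : Transcendental k x := by
    have h1 := hs.1.transcendental ⟨x, by simp⟩
    simpa using h1
  refine ⟨x, hx, ?_⟩
  have h2 : ((({x} : Finset K) : Set K)) = {x} := Finset.coe_singleton x
  rwa [h2] at hsep

theorem D_mem_span {x : K} (r : k⟮x⟯) :
    KaehlerDifferential.D k K (r : K) ∈ Submodule.span K {KaehlerDifferential.D k K x} := by
  obtain ⟨r, hr⟩ := r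
  change KaehlerDifferential.D k K r ∈ _
  induction hr using IntermediateField.adjoin_induction with
  | mem y hy =>
    rw [Set.mem_singleton_iff] at hy
    subst hy
    exact Submodule.subset_span rfl
  | algebraMap c =>
    rw [Derivation.map_algebraMap]
    exact Submodule.zero_mem _
  | add a b _ _ ha hb => rw [map_add]; exact Submodule.add_mem _ ha hb
  | mul a b _ _ ha hb =>
    rw [Derivation.leibniz]
    exact Submodule.add_mem _ (Submodule.smul_mem _ _ hb) (Submodule.smul_mem _ _ ha)
  | inv a _ ha =>
    rw [Derivation.leibniz_inv]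
    exact Submodule.smul_mem _ _ ha

theorem span_D {x : K} (hsep : Algebra.IsSeparable k⟮x⟯ K) (ω : Ω[K⁄k]) :
    ω ∈ Submodule.span K {KaehlerDifferential.D k K x} := by
  have h1 : Algebra.FormallyUnramified k⟮x⟯ K := Algebra.FormallyUnramified.of_isSeparable _ _
  have h2 : Subsingleton (Ω[K⁄k⟮x⟯]) := h1.subsingleton_kaehlerDifferential
  have h3 : ω ∈ LinearMap.ker (KaehlerDifferential.map k k⟮x⟯ K K) := by
    rw [LinearMap.mem_ker]; exact Subsingleton.elim _ _
  rw [← KaehlerDifferential.range_mapBaseChange] at h3
  obtain ⟨t, rfl⟩ := h3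
  induction t with
  | zero => rw [map_zero]; exact Submodule.zero_mem _
  | add a b ha hb => rw [map_add]; exact Submodule.add_mem _ ha hb
  | tmul a b =>
    rw [KaehlerDifferential.mapBaseChange_tmul]
    apply Submodule.smul_mem
    have hb : b ∈ Submodule.span k⟮x⟯ (Set.range (KaehlerDifferential.D k k⟮x⟯)) := by
      rw [KaehlerDifferential.span_range_derivation]; trivial
    induction hb using Submodule.span_induction with
    | mem y hy =>
      obtain ⟨r, rfl⟩ := hy
      rw [KaehlerDifferential.map_D]
      exact D_mem_span r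
    | zero => rw [map_zero]; exact Submodule.zero_mem _
    | add a b _ _ ha hb => rw [map_add]; exact Submodule.add_mem _ ha hb
    | smul c y _ hy =>
      rw [map_smul, ← algebraMap_smul K c]
      exact Submodule.smul_mem _ _ hy

theorem sep_of_D_ne [PerfectField k] [h : IsFF k K] {f : K} (hf : KaehlerDifferential.D k K f ≠ 0) :
    Transcendental k f ∧ Algebra.IsSeparable k⟮f⟯ K := by
  constructor
  · intro hal
    apply hf
    have h1 := PerfectField.separable_of_irreducible (minpoly.irreducible hal.isIntegral)
    have h2 := h1.aeval_derivative_ne_zero (minpoly.aeval k f)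
    have h3 := (KaehlerDifferential.D k K).map_aeval (minpoly k f) f
    rw [minpoly.aeval, map_zero] at h3
    exact (smul_eq_zero.1 h3.symm).resolve_left h2
  · obtain ⟨x, hx, hsep⟩ := exists_sep (k := k) (K := K)
    have h1 : ∃ c : K, KaehlerDifferential.D k K x = c • KaehlerDifferential.D k K f := by
      have h2 := span_D hsep (KaehlerDifferential.D k K f)
      obtain ⟨c, hc⟩ := Submodule.mem_span_singleton.1 h2
      have hc0 : c ≠ 0 := by
        rintro rfl
        rw [zero_smul] at hc
        exact hf hc.symm
      refine ⟨c⁻¹, ?_⟩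
      rw [← hc, smul_smul, inv_mul_cancel₀ hc0, one_smul]
    obtain ⟨c, hc⟩ := h1
    have h3 : Subsingleton (Ω[K⁄k⟮f⟯]) := by
      constructor
      intro a b
      have h4 : ∀ a : Ω[K⁄k⟮f⟯], a = 0 := by
        intro a
        obtain ⟨ω, rfl⟩ := KaehlerDifferential.map_surjective k k⟮f⟯ K a
        obtain ⟨d, rfl⟩ := Submodule.mem_span_singleton.1 (span_D hsep ω)
        rw [map_smul, hc, map_smul, KaehlerDifferential.map_D]
        have h5 : algebraMap K K f = algebraMap k⟮f⟯ K (AdjoinSimple.gen k f) := by simp
        rw [h5, Derivation.map_algebraMap, smul_zero, smul_zero]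
      rw [h4 a, h4 b]
    have h4 : Algebra.FormallyUnramified k⟮f⟯ K := ⟨h3⟩
    have h5 := h.ess
    have h6 : Algebra.EssFiniteType k⟮f⟯ K := Algebra.EssFiniteType.of_comp k k⟮f⟯ K
    exact Algebra.FormallyUnramified.isSeparable _ _

variable (k K) in
theorem exists_D_ne [PerfectField k] [h : IsFF k K] : ∃ x : K, KaehlerDifferential.D k K x ≠ 0 := by
  obtain ⟨x, hx, hsep⟩ := exists_sep (k := k) (K := K)
  refine ⟨x, fun h0 => ?_⟩
  have h3 : Subsingleton (Ω[K⁄k]) := by
    constructor
    intro a b
    obtain ⟨c, rfl⟩ := Submodule.mem_span_singleton.1 (span_D hsep a)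
    obtain ⟨d, rfl⟩ := Submodule.mem_span_singleton.1 (span_D hsep b)
    rw [h0, smul_zero, smul_zero]
  have h4 : Algebra.FormallyUnramified k K := ⟨h3⟩
  have h5 := h.ess
  have h6 : Algebra.IsSeparable k K := Algebra.FormallyUnramified.isSeparable _ _
  exact hx ((Algebra.IsSeparable.isSeparable k x).isIntegral.isAlgebraic)

end Pool.Agent.H525R3.FFp
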