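import Pool.Agent.H525R3.FFp.Riemann

/-! Counting the elements of a ray group in Riemann-Roch spaces. -/

set_option autoImplicit false
set_option linter.all false
set_option linter.overlappingInstances false

open Module IsDedekindDomain IntermediateField FF

namespace Pool.Agent.H525R3.FFp

section ray

variable {k K : Type*} [Field k] [Field K] [Algebra k K]

theorem ord_near {x : Place k K} {M : ℕ} {u : K} (h : u = 1 ∨ (M : ℤ) < x.ord (u - 1)) :
    x.ord u = 0 := by
  rcases h with h | h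
  · rw [h, x.ord_one]
  · by_cases h0 : u - 1 = 0
    · rw [sub_eq_zero.1 h0, x.ord_one]
    · have h1 := x.ord_add_eq (one_ne_zero) h0 (by rw [x.ord_one]; omega)
      rw [add_sub_cancel, x.ord_one] at h1
      exact h1.2

/-- The ray group: units congruent to `1` to order more than `M` at all places of `T`. -/
def ray (T : Finset (Place k K)) (M : ℕ) : Subgroup Kˣ where
  carrier := {u | ∀ x ∈ T, (u : K) = 1 ∨ (M : ℤ) < x.ord ((u : K) - 1)}
  one_mem' := fun x _ => Or.inl rfl
  mul_mem' := by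
    intro u v hu hv x hx
    have h1 := hu x hx
    have h2 := hv x hx
    rw [Units.val_mul]
    by_cases huv : (u : K) * v = 1
    · exact Or.inl huv
    by_cases hu1 : (u : K) = 1
    · rw [hu1, one_mul]; exact h2
    by_cases hv1 : (v : K) = 1
    · rw [hv1, mul_one]; exact h1
    right
    have h3 := h1.resolve_left hu1
    have h4 := h2.resolve_left hv1
    have h5 : (u : K) * v - 1 = ((u : K) - 1) * v + ((v : K) - 1) := by ring
    have h6 : ((u : K) - 1) * v ≠ 0 := mul_ne_zero (sub_ne_zero.2 hu1) v.ne_zero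
    have h7 := x.ord_add h6 (sub_ne_zero.2 hv1) (by rw [← h5]; exact sub_ne_zero.2 huv)
    rw [← h5, x.ord_mul (sub_ne_zero.2 hu1) v.ne_zero, ord_near h2] at h7
    have h8 : (M : ℤ) < min (x.ord ((u : K) - 1) + 0) (x.ord ((v : K) - 1)) := by
      rw [lt_min_iff]; constructor <;> omega
    omega
  inv_mem' := by
    intro u hu x hx
    have h1 := hu x hx
    by_cases hu1 : (u : K) = 1
    · left; rw [Units.val_inv_eq_inv_val, hu1, inv_one]
    right
    have h3 := h1.resolve_left hu1
    have h5 : ((u⁻¹ : Kˣ) : K) - 1 = -(((u : K) - 1) * (u : K)⁻¹) := by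
      rw [Units.val_inv_eq_inv_val, sub_mul, mul_inv_cancel₀ u.ne_zero]; ring
    rw [h5, x.ord_neg, x.ord_mul (sub_ne_zero.2 hu1) (inv_ne_zero u.ne_zero), x.ord_inv,
      ord_near h1]
    omega

theorem mem_ray {T : Finset (Place k K)} {M : ℕ} {u : Kˣ} :
    u ∈ ray T M ↔ ∀ x ∈ T, (u : K) = 1 ∨ (M : ℤ) < x.ord ((u : K) - 1) := Iff.rfl

theorem ord_ray {T : Finset (Place k K)} {M : ℕ} {u : Kˣ} (hu : u ∈ ray T M) {x : Place k K}
    (hx : x ∈ T) : x.ord (u : K) = 0 := ord_near (hu x hx)

end ray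

variable {k K : Type*} [Field k] [Field K] [Algebra k K]

/-- The modulus. -/
noncomputable def modE (T : Finset (Place k K)) (M : ℕ) : Place k K →₀ ℤ :=
  Finsupp.indicator T (fun _ _ => (M : ℤ) + 1)

theorem modE_mem {T : Finset (Place k K)} {M : ℕ} {x : Place k K} (hx : x ∈ T) :
    modE T M x = M + 1 := by
  unfold modE; rw [Finsupp.indicator_of_mem hx]

theorem modE_notMem {T : Finset (Place k K)} {M : ℕ} {x : Place k K} (hx : x ∉ T) :
    modE T M x = 0 := by
  unfold modE; rw [Finsupp.indicator_of_notMem hx]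

theorem modE_nonneg (T : Finset (Place k K)) (M : ℕ) : 0 ≤ modE T M := by
  intro x
  by_cases hx : x ∈ T
  · rw [modE_mem hx]; simp; omega
  · rw [modE_notMem hx]; simp

variable [PerfectField k] [IsFF k K]

theorem LL_inf {T : Finset (Place k K)} (M : ℕ) {D : Place k K →₀ ℤ} (hD : ∀ x ∈ T, D x = 0) :
    LL D ⊓ LL (D ⊔ 0 - modE T M) = LL (D - modE T M) := by
  apply le_antisymm
  · rintro h ⟨h1, h2⟩
    by_cases hh : h = 0
    · exact Or.inl hh
    right
    intro P
    have h3 := (h1.resolve_left hh) P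
    have h4 := (h2.resolve_left hh) P
    rw [Finsupp.sub_apply] at h4 ⊢
    rw [Finsupp.sup_apply] at h4
    by_cases hP : P ∈ T
    · rw [modE_mem hP] at *
      rw [hD P hP] at *
      simp at h4
      omega
    · rw [modE_notMem hP] at *
      omega
  · apply le_inf
    · apply LL_mono
      exact sub_le_self _ (modE_nonneg T M)
    · apply LL_mono
      exact sub_le_sub_right le_sup_left _

theorem exists_near {T : Finset (Place k K)} (M : ℕ) {γ N : ℤ}
    (hN : ∀ D : Place k K →₀ ℤ, N ≤ ddeg D → ell D = ddeg D - γ)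
    {D : Place k K →₀ ℤ} (hD : ∀ x ∈ T, D x = 0) (hdeg : N + ddeg (modE T M) ≤ ddeg D) :
    ∃ f ∈ LL D, 1 - f ∈ LL (D ⊔ 0 - modE T M) := by
  have hE := ddeg_nonneg (modE_nonneg T M)
  have hD' : ddeg D ≤ ddeg (D ⊔ 0) := ddeg_mono le_sup_left
  have h1 := hN D (by omega)
  have h2 := hN (D ⊔ 0 - modE T M) (by rw [ddeg_sub]; omega)
  have h3 := hN (D - modE T M) (by rw [ddeg_sub]; omega)
  have h4 := hN (D ⊔ 0) (by omega)
  rw [ddeg_sub] at h2 h3
  have h5 := Submodule.finrank_sup_add_finrank_inf_eq (LL D) (LL (D ⊔ 0 - modE T M))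
  rw [LL_inf M hD] at h5
  have hle : LL D ⊔ LL (D ⊔ 0 - modE T M) ≤ LL (D ⊔ 0) :=
    sup_le (LL_mono le_sup_left) (LL_mono (sub_le_self _ (modE_nonneg T M)))
  have h6 : LL D ⊔ LL (D ⊔ 0 - modE T M) = LL (D ⊔ 0) := by
    apply Submodule.eq_of_le_of_finrank_eq hle
    unfold ell at h1 h2 h3 h4
    have h7 : ((finrank k ↥(LL D ⊔ LL (D ⊔ 0 - modE T M)) : ℕ) : ℤ) = finrank k ↥(LL (D ⊔ 0)) := by
      have h8 : ((finrank k ↥(LL D ⊔ LL (D ⊔ 0 - modE T M)) : ℕ) : ℤ) +
          finrank k ↥(LL (D - modE T M)) = finrank k ↥(LL D) + finrank k ↥(LL (D ⊔ 0 - modE T M)) := by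
        exact_mod_cast h5
      omega
    exact_mod_cast h7
  have h7 : (1 : K) ∈ LL (D ⊔ 0) := by
    right
    intro P
    rw [P.ord_one, Finsupp.sup_apply]
    simp
  rw [← h6, Submodule.mem_sup] at h7
  obtain ⟨f, hf, g, hg, hfg⟩ := h7
  refine ⟨f, hf, ?_⟩
  rw [← hfg, add_sub_cancel_left]
  exact hg

/-- Elements of the modulus space are small at `T`. -/
theorem small_of_mem {T : Finset (Place k K)} {M : ℕ} {D : Place k K →₀ ℤ}
    (hD : ∀ x ∈ T, D x = 0) {g : K} (hg : g ∈ LL (D - modE T M)) {x : Place k K} (hx : x ∈ T) :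
    g = 0 ∨ (M : ℤ) < x.ord g := by
  rcases hg with h | h
  · exact Or.inl h
  · right
    have h1 := h x
    rw [Finsupp.sub_apply, modE_mem hx, hD x hx] at h1
    omega

theorem small_add {x : Place k K} {M : ℤ} {f g : K} (hf : f = 0 ∨ M < x.ord f)
    (hg : g = 0 ∨ M < x.ord g) : f + g = 0 ∨ M < x.ord (f + g) := by
  by_cases hf0 : f = 0
  · rw [hf0, zero_add]; exact hg
  by_cases hg0 : g = 0
  · rw [hg0, add_zero]; exact hf
  by_cases hfg : f + g = 0
  · exact Or.inl hfg
  right
  have := x.ord_add hf0 hg0 hfg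
  have h1 := hf.resolve_left hf0
  have h2 := hg.resolve_left hg0
  have h3 := lt_min h1 h2
  omega

theorem small_neg {x : Place k K} {M : ℤ} {f : K} (hf : f = 0 ∨ M < x.ord f) :
    -f = 0 ∨ M < x.ord (-f) := by
  rw [x.ord_neg, neg_eq_zero]; exact hf

/-- The count. -/
theorem ray_count [Finite k] (T : Finset (Place k K)) (hT : T.Nonempty) (M : ℕ) :
    ∃ (N0 : ℤ) (c : ℤ → ℕ), (∀ d, 0 < c d) ∧
      ∀ D : Place k K →₀ ℤ, (∀ x ∈ T, D x = 0) → N0 ≤ ddeg D →
        Finite {u : ray T M // 0 ≤ D + divisor k ((u : Kˣ) : K)} ∧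
        Nat.card {u : ray T M // 0 ≤ D + divisor k ((u : Kˣ) : K)} = c (ddeg D) := by
  obtain ⟨γ, N, hγ, hN⟩ := riemann k K
  refine ⟨N + ddeg (modE T M), fun d => Nat.card k ^ (d - ddeg (modE T M) - γ).toNat,
    fun d => pow_pos Nat.card_pos _, ?_⟩
  intro D hD hdeg
  obtain ⟨f0, hf0, hf1⟩ := exists_near M hN hD hdeg
  have hD0 : ∀ x ∈ T, (D ⊔ 0) x = 0 := by
    intro x hx
    rw [Finsupp.sup_apply, hD x hx]; simp
  have hs0 : ∀ x ∈ T, 1 - f0 = 0 ∨ (M : ℤ) < x.ord (1 - f0) := fun x hx => small_of_mem hD0 hf1 hx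
  have hne : ∀ g : K, g ∈ LL (D - modE T M) → f0 + g ≠ 0 := by
    intro g hg h0
    obtain ⟨x, hx⟩ := hT
    have h1 := small_of_mem hD hg hx
    have h2 := hs0 x hx
    have h3 := small_add h2 (small_neg h1)
    have h4 : 1 - f0 + -g = 1 := by
      have : f0 = -g := eq_neg_of_add_eq_zero_left h0
      rw [this]; ring
    rw [h4, x.ord_one] at h3
    rcases h3 with h3 | h3
    · exact one_ne_zero h3
    · omega
  let e : {u : ray T M // 0 ≤ D + divisor k ((u : Kˣ) : K)} ≃ LL (D - modE T M) :=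
    { toFun := fun u => ⟨((u.1 : Kˣ) : K) - f0, by
        have hu1 : ((u.1 : Kˣ) : K) ∈ LL D := by
          rw [mem_LL' (u.1 : Kˣ).ne_zero, add_comm]; exact u.2
        have hu2 := (LL D).sub_mem hu1 hf0
        by_cases h0 : ((u.1 : Kˣ) : K) - f0 = 0
        · exact Or.inl h0
        right
        intro P
        have h1 := (hu2.resolve_left h0) P
        rw [Finsupp.sub_apply]
        by_cases hP : P ∈ T
        · rw [modE_mem hP, hD P hP]
          have h2 := hs0 P hP
          have h3 : ((u.1 : Kˣ) : K) - 1 = 0 ∨ (M : ℤ) < P.ord (((u.1 : Kˣ) : K) - 1) := by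
            rcases u.1.2 P hP with h | h
            · left; rw [h, sub_self]
            · exact Or.inr h
          have h4 := small_add h3 h2
          have h5 : ((u.1 : Kˣ) : K) - 1 + (1 - f0) = ((u.1 : Kˣ) : K) - f0 := by ring
          rw [h5] at h4
          have h6 := h4.resolve_left h0
          omega
        · rw [modE_notMem hP]; omega⟩
      invFun := fun g => ⟨⟨Units.mk0 (f0 + g.1) (hne g.1 g.2), by
        intro x hx
        rw [Units.val_mk0]
        have h1 := small_of_mem hD g.2 hx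
        have h2 := small_neg (hs0 x hx)
        have h3 := small_add h1 h2
        have h4 : g.1 + -(1 - f0) = f0 + g.1 - 1 := by ring
        rw [h4] at h3
        rcases h3 with h3 | h3
        · left; exact sub_eq_zero.1 h3
        · exact Or.inr h3⟩, by
        rw [add_comm]
        rw [← mem_LL' (Units.ne_zero _), Units.val_mk0]
        exact (LL D).add_mem hf0 (LL_mono (sub_le_self _ (modE_nonneg T M)) g.2)⟩
      left_inv := by
        intro u
        apply Subtype.ext
        apply Subtype.ext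
        apply Units.ext
        simp
      right_inv := by
        intro g
        apply Subtype.ext
        simp }
  have hfin : Finite (LL (D - modE T M)) := Module.finite_of_finite k
  have h3 := hN (D - modE T M) (by rw [ddeg_sub]; omega)
  rw [ddeg_sub] at h3
  refine ⟨Finite.of_equiv _ e.symm, ?_⟩
  rw [Nat.card_congr e, Module.natCard_eq_pow_finrank (K := k)]
  congr 1
  unfold ell at h3
  omega

end Pool.Agent.H525R3.FFp
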